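import Pool.Agent.H99.CE.Targets

/-!
# Row STR: the stretches over several boxes (helper36)
-/

set_option autoImplicit false

open MeasureTheory ProbabilityTheory Filter Topology
open scoped ENNReal
open Pool.Agent.H95 Pool.Agent.H95.Cop Pool.Agent.H96.Cop Pool.Agent.H99.CE

namespace Pool.Agent.H36.CE

lemma sr_div (M : ℕ) (hM : 1 ≤ M) (e : ℕ) : ∑ i ∈ Finset.range M, (i + e) / M = e := by
  induction e with
  | zero =>
    refine Finset.sum_eq_zero fun i hi => ?_
    rw [Finset.mem_range] at hi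
    exact Nat.div_eq_of_lt (by omega)
  | succ e ih =>
    have h1 := Finset.sum_range_succ (fun i => (i + e) / M) M
    have h2 := Finset.sum_range_succ' (fun i => (i + e) / M) M
    have h3 : (M + e) / M = e / M + 1 := by
      rw [Nat.add_comm, Nat.add_div_right _ (by omega)]
    have h4 : ∀ i, i + (e + 1) = i + 1 + e := fun i => by omega
    simp only [h4]
    simp only [zero_add] at h2
    omega

lemma sr_shift (i : ℕ) (h : ℕ → ℝ≥0∞) (N : ℕ) :
    ∑ s ∈ Finset.range N, (if i ≤ s then h (s - i) else 0) = ∑ e ∈ Finset.range (N - i), h e := by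
  induction N with
  | zero => simp
  | succ N ih =>
    rw [Finset.sum_range_succ, ih]
    by_cases hc : i ≤ N
    · rw [if_pos hc, show N + 1 - i = (N - i) + 1 by omega, Finset.sum_range_succ]
    · rw [if_neg hc, show N + 1 - i = N - i by omega, add_zero]

lemma sr_block (G : ℕ → ℝ≥0∞) (M J : ℕ) :
    ∑ j ∈ Finset.range J, ∑ r ∈ Finset.range M, G (j * M + r) =
      ∑ s ∈ Finset.range (J * M), G s := by
  induction J with
  | zero => simp
  | succ J ih =>
    rw [Finset.sum_range_succ, ih, Nat.succ_mul, Finset.sum_range_add]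

lemma sr_comb (y : ℕ → ℝ≥0∞) (M : ℕ) (hM : 1 ≤ M) (J : ℕ) :
    ∑ j ∈ Finset.range J, (j : ℝ≥0∞) * (∑ i ∈ Finset.range M, ∑ r ∈ Finset.range M,
      if i ≤ j * M + r then y (j * M + r - i) else 0) ≤
    ∑ e ∈ Finset.range (J * M), (e : ℝ≥0∞) * y e := by
  set G : ℕ → ℝ≥0∞ := fun s => ∑ i ∈ Finset.range M,
    if i ≤ s then (fun e => (((i + e) / M : ℕ) : ℝ≥0∞) * y e) (s - i) else 0 with hG
  have h1 : ∀ j ∈ Finset.range J, (j : ℝ≥0∞) * (∑ i ∈ Finset.range M, ∑ r ∈ Finset.range M,
      if i ≤ j * M + r then y (j * M + r - i) else 0) =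
      ∑ r ∈ Finset.range M, G (j * M + r) := by
    intro j _
    rw [Finset.sum_comm, Finset.mul_sum]
    refine Finset.sum_congr rfl fun r hr => ?_
    rw [Finset.mem_range] at hr
    rw [hG, Finset.mul_sum]
    refine Finset.sum_congr rfl fun i _ => ?_
    by_cases hc : i ≤ j * M + r
    · rw [if_pos hc, if_pos hc]
      have h2 : (i + (j * M + r - i)) / M = j := by
        rw [show i + (j * M + r - i) = r + j * M by omega,
          Nat.add_mul_div_right _ _ (by omega), Nat.div_eq_of_lt hr, zero_add]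
      simp only [h2]
    · rw [if_neg hc, if_neg hc, mul_zero]
  rw [Finset.sum_congr rfl h1, sr_block G M J, hG, Finset.sum_comm]
  calc ∑ i ∈ Finset.range M, ∑ s ∈ Finset.range (J * M),
        (if i ≤ s then (fun e => (((i + e) / M : ℕ) : ℝ≥0∞) * y e) (s - i) else 0)
      ≤ ∑ i ∈ Finset.range M, ∑ e ∈ Finset.range (J * M), (((i + e) / M : ℕ) : ℝ≥0∞) * y e := by
        refine Finset.sum_le_sum fun i _ => ?_
        refine (sr_shift i (fun e => (((i + e) / M : ℕ) : ℝ≥0∞) * y e) (J * M)).le.trans ?_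
        exact Finset.sum_le_sum_of_subset (Finset.range_mono (Nat.sub_le _ _))
    _ = ∑ e ∈ Finset.range (J * M), (e : ℝ≥0∞) * y e := by
        rw [Finset.sum_comm]
        refine Finset.sum_congr rfl fun e _ => ?_
        rw [← Finset.sum_mul, ← Nat.cast_sum, sr_div M hM e]

theorem pf_STR (hPFM : T_PFM) (hBDC : T_BDC) (hBBX : T_BBX) (hREX : T_REX) : T_STR := by
  intro K ν _ B M l θ hB hM hθ hθ1 hl fh lh f1 l1 hfh hlh h4 hf1 hl1
  have mB : ∀ e, Measurable (BX (w1 K B) B e) := fun e =>
    ((hPFM.1 (w1 K B) ((hPFM.2 K).1 B)).2.1 B e).1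
  have dB : ∀ e, DepLt ((e + 1) * B) (BX (w1 K B) B e) := fun e =>
    ((hPFM.1 (w1 K B) ((hPFM.2 K).1 B)).2.1 B e).2.1
  have mM : ∀ e, Measurable (BX (w1 K (M * B)) B e) := fun e =>
    ((hPFM.1 (w1 K (M * B)) ((hPFM.2 K).1 (M * B))).2.1 B e).1
  set y : ℕ → ℝ≥0∞ := fun e => ∫⁻ x, BX (w1 K (M * B)) B e x ^ θ ∂(iid ν) with hy
  have hrec : ∀ e, y e ≤ ∫⁻ x, BX (w1 K B) B e x ^ θ ∂(iid ν) +
      ∑ b ∈ Finset.range (e + 1), ∑ D ∈ Finset.Icc 1 e,
        if b + D ≤ e then (fun b => ∫⁻ x, BX (w1 K B) B b x ^ θ ∂(iid ν)) b *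
          ((fun D => l D ^ θ) D * y (e - b - D)) else 0 := by
    intro e
    have h1 : ∀ x, BX (w1 K (M * B)) B e x ^ θ ≤ BX (w1 K B) B e x ^ θ +
        ∑ b ∈ Finset.range (e + 1), ∑ D ∈ Finset.Icc 1 e, if b + D ≤ e then
          BX (w1 K B) B b x ^ θ * (l D ^ θ *
            BX (w1 K (M * B)) B (e - b - D) (shift ((b + D) * B) x) ^ θ) else 0 := by
      intro x
      refine (ENNReal.rpow_le_rpow (hBDC K B (M * B) l hB (Nat.le_mul_of_pos_left _ hM) hl e x)
        hθ.le).trans ?_
      refine (ENNReal.rpow_add_le_add_rpow _ _ hθ.le hθ1).trans (add_le_add le_rfl ?_)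
      refine (Pool.Agent.H96.Cop.rpow_sum_le _ _ θ hθ hθ1).trans
        (Finset.sum_le_sum fun b _ => ?_)
      refine (Pool.Agent.H96.Cop.rpow_sum_le _ _ θ hθ hθ1).trans
        (Finset.sum_le_sum fun D _ => ?_)
      by_cases hc : b + D ≤ e
      · rw [if_pos hc, if_pos hc, ENNReal.mul_rpow_of_nonneg _ _ hθ.le,
          ENNReal.mul_rpow_of_nonneg _ _ hθ.le]
      · rw [if_neg hc, if_neg hc, ENNReal.zero_rpow_of_pos hθ]
    have hmt : ∀ b D, Measurable fun x => BX (w1 K B) B b x ^ θ * (l D ^ θ *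
        BX (w1 K (M * B)) B (e - b - D) (shift ((b + D) * B) x) ^ θ) := fun b D =>
      ((mB b).pow_const θ).mul (measurable_const.mul
        (((mM _).comp (measurable_shift _)).pow_const θ))
    have hmi : ∀ b D, Measurable fun x => if b + D ≤ e then BX (w1 K B) B b x ^ θ * (l D ^ θ *
        BX (w1 K (M * B)) B (e - b - D) (shift ((b + D) * B) x) ^ θ) else 0 := by
      intro b D
      by_cases hc : b + D ≤ e
      · simp only [if_pos hc]
        exact hmt b D
      · simp only [if_neg hc]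
        exact measurable_const
    refine (lintegral_mono h1).trans ?_
    have hm0 : Measurable fun x => BX (w1 K B) B e x ^ θ := (mB e).pow_const θ
    rw [lintegral_add_left hm0]
    refine add_le_add le_rfl ?_
    rw [lintegral_finsetSum _ (fun b _ => Finset.measurable_sum _ fun D _ => hmi b D)]
    refine Finset.sum_le_sum fun b _ => ?_
    rw [lintegral_finsetSum _ (fun D _ => hmi b D)]
    refine Finset.sum_le_sum fun D hD => ?_
    by_cases hc : b + D ≤ e
    · simp only [if_pos hc]
      rw [Finset.mem_Icc] at hD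
      have hm1 : Measurable fun x => BX (w1 K B) B b x ^ θ := (mB b).pow_const θ
      have hm2 : Measurable fun x => l D ^ θ * BX (w1 K (M * B)) B (e - b - D) x ^ θ :=
        measurable_const.mul ((mM _).pow_const θ)
      have hd1 : DepLt ((b + D) * B) (fun x => BX (w1 K B) B b x ^ θ) := by
        intro x x' hx
        have := ((dB b).mono (Nat.mul_le_mul_right B (by omega : b + 1 ≤ b + D))) x x' hx
        simp only [this]
      have h5 := lint_mul_shift ν hd1 hm1 hm2
      have hm3 : Measurable fun x => BX (w1 K (M * B)) B (e - b - D) x ^ θ :=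
        (mM _).pow_const θ
      rw [lintegral_const_mul _ hm3] at h5
      exact le_of_eq h5
    · simp only [if_neg hc]
      simp
  obtain ⟨h5, h6⟩ := hREX _ _ y fh lh hrec hfh hlh h4
  refine ⟨h5, fun J => ?_⟩
  refine le_trans ?_ (h6 f1 l1 hf1 hl1 (J * M))
  refine le_trans ?_ (sr_comb y M hM J)
  refine Finset.sum_le_sum fun j _ => ?_
  gcongr
  have hmi : ∀ i r, Measurable fun x => if i ≤ j * M + r then
      BX (w1 K (M * B)) B (j * M + r - i) (shift (i * B) x) ^ θ else 0 := by
    intro i r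
    by_cases hc : i ≤ j * M + r
    · simp only [if_pos hc]
      exact ((mM _).comp (measurable_shift _)).pow_const θ
    · simp only [if_neg hc]
      exact measurable_const
  calc ∫⁻ x, BX (w1 K (M * B)) (M * B) j x ^ θ ∂(iid ν)
      ≤ ∫⁻ x, ∑ i ∈ Finset.range M, ∑ r ∈ Finset.range M, (if i ≤ j * M + r then
          BX (w1 K (M * B)) B (j * M + r - i) (shift (i * B) x) ^ θ else 0) ∂(iid ν) := by
        refine lintegral_mono fun x => ?_
        rw [hBBX (w1 K (M * B)) B M j x hB hM]
        refine (Pool.Agent.H96.Cop.rpow_sum_le _ _ θ hθ hθ1).trans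
          (Finset.sum_le_sum fun i _ => ?_)
        refine (Pool.Agent.H96.Cop.rpow_sum_le _ _ θ hθ hθ1).trans
          (Finset.sum_le_sum fun r _ => ?_)
        by_cases hc : i ≤ j * M + r
        · rw [if_pos hc, if_pos hc]
        · rw [if_neg hc, if_neg hc, ENNReal.zero_rpow_of_pos hθ]
    _ = ∑ i ∈ Finset.range M, ∑ r ∈ Finset.range M,
          if i ≤ j * M + r then y (j * M + r - i) else 0 := by
        rw [lintegral_finsetSum _ (fun i _ => Finset.measurable_sum _ fun r _ => hmi i r)]
        refine Finset.sum_congr rfl fun i _ => ?_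
        rw [lintegral_finsetSum _ (fun r _ => hmi i r)]
        refine Finset.sum_congr rfl fun r _ => ?_
        by_cases hc : i ≤ j * M + r
        · simp only [if_pos hc]
          have hm3 : Measurable fun x => BX (w1 K (M * B)) B (j * M + r - i) x ^ θ :=
            (mM _).pow_const θ
          exact (measurePreserving_shift (ν := ν) (i * B)).lintegral_comp hm3
        · simp only [if_neg hc]
          simp

end Pool.Agent.H36.CE
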