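import Mathlib
import Pool.Agent.H49.CE.Targets

set_option autoImplicit false

/-!
# Module A8: the pairs theorem (assembly), MP_70000a_co
-/

noncomputable section

namespace Pool.Agent.H36.CEM

open CE
open scoped Classical

variable (F : Type) [Field F] {V : Type} [AddCommGroup V] [Module F V]

lemma isCone_Dq {D : Finset V} (g : V) (hD : IsCone F D) : IsCone F (Dq F g D) := by
  refine ⟨by simp [Dq], ?_⟩
  intro c hc v hv
  simp only [Dq, Finset.mem_erase, Finset.mem_image] at hv ⊢
  obtain ⟨hv0, x, hx, rfl⟩ := hv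
  refine ⟨?_, c • x, hD.2 c hc x hx, by simp⟩
  intro h
  rcases smul_eq_zero.mp h with h1 | h1
  · exact hc h1
  · exact hv0 h1

lemma isCone_filter {D : Finset V} (φ : V →ₗ[F] F) (hD : IsCone F D) :
    IsCone F (D.filter (fun x => φ x = 0)) := by
  refine ⟨fun h => hD.1 (Finset.mem_filter.mp h).1, ?_⟩
  intro c hc v hv
  rw [Finset.mem_filter] at hv ⊢
  exact ⟨hD.2 c hc v hv.1, by rw [map_smul, hv.2, smul_zero]⟩

lemma clique_mono {C C' D : Finset V} (h : C ⊆ C') (r : ℕ) (hC : Clique F r C D) :
    Clique F r C' D := by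
  obtain ⟨Z0, p, h1, h2, h3, h4⟩ := hC
  exact ⟨Z0, p, h1, fun i => h (h2 i), h3, h4⟩

lemma EE_le {V : Type} [AddCommGroup V] (C D : Finset V) : EE C D ≤ C.card * C.card := by
  unfold EE
  refine (Finset.card_filter_le _ _).trans ?_
  rw [Finset.card_product]

lemma EE_translate {V : Type} [AddCommGroup V] (C D : Finset V) (y : V) :
    EE (C.image (fun x => x - y)) D = EE C D := by
  unfold EE
  symm
  apply Finset.card_bij (fun p _ => (p.1 - y, p.2 - y))
  · rintro ⟨a, b⟩ h
    simp only [Finset.mem_filter, Finset.mem_product, Finset.mem_image] at h ⊢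
    refine ⟨⟨⟨a, h.1.1, rfl⟩, ⟨b, h.1.2, rfl⟩⟩, ?_⟩
    rw [sub_sub_sub_cancel_right]
    exact h.2
  · rintro ⟨a, b⟩ _ ⟨c, d⟩ _ h
    simp only [Prod.mk.injEq, sub_left_inj] at h
    rw [h.1, h.2]
  · rintro ⟨a, b⟩ h
    simp only [Finset.mem_filter, Finset.mem_product, Finset.mem_image] at h
    obtain ⟨⟨⟨a', ha', rfl⟩, ⟨b', hb', rfl⟩⟩, h2⟩ := h
    refine ⟨(a', b'), ?_, rfl⟩
    simp only [Finset.mem_filter, Finset.mem_product]
    rw [sub_sub_sub_cancel_right] at h2
    exact ⟨⟨ha', hb'⟩, h2⟩

lemma card_Cq_lt {C : Finset V} {g x y : V} (hx : x ∈ C) (hy : y ∈ C) (hxy : x - y = g)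
    (hg : g ≠ 0) : (Cq F g C).card < C.card := by
  unfold Cq
  refine lt_of_le_of_ne Finset.card_image_le ?_
  intro h
  have hinj := Finset.card_image_iff.mp h
  have : x = y := by
    apply hinj hx hy
    rw [← sub_eq_zero, ← map_sub, hxy]
    simp [Submodule.mkQ_apply, Submodule.Quotient.mk_eq_zero, Submodule.mem_span_singleton_self]
  apply hg
  rw [← hxy, this, sub_self]

theorem pairs (hLC : T_LC) (hLP : T_LP) (hLP2 : T_LP2) (hDICH : T_DICH) (hFUN : T_FUN)
    (hHUB : T_HUB) : T_PAIRS := by
  intro F _ _ a r n hr hn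
  have hq : 2 ≤ Fintype.card F := Fintype.one_lt_card
  -- outer induction
  obtain ⟨N, hN⟩ : ∃ N, N = a + r := ⟨_, rfl⟩
  induction N using Nat.strong_induction_on generalizing a r with
  | _ N ihN =>
  intro V _ _ _ C D hD hC hE
  -- inner induction
  obtain ⟨k, hk⟩ : ∃ k, k = C.card := ⟨_, rfl⟩
  induction k using Nat.strong_induction_on generalizing V C D with
  | _ k ihk =>
  rcases Nat.lt_or_ge r 2 with hr2 | hr2
  · -- r = 1
    have hr1 : r = 1 := by omega
    subst hr1
    left
    obtain ⟨x, hx⟩ := hC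
    refine ⟨∅, fun _ => x, by simp, fun _ => hx, ?_, ?_⟩
    · intro c hc _
      funext i
      rw [Fin.sum_univ_one] at hc
      rw [Subsingleton.elim i 0, hc]
      rfl
    · intro i j hij
      exact absurd (Subsingleton.elim i j) hij
  rcases Nat.eq_zero_or_pos a with ha | ha
  · -- a = 0
    subst ha
    right
    have h1 : n ≤ C.card := by
      have h2 := hE.trans (EE_le C D)
      have h3 := Nat.le_of_mul_le_mul_right h2 (Finset.card_pos.mpr hC)
      refine le_trans ?_ h3
      exact Nat.le_mul_of_pos_left n (by positivity)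
    obtain ⟨s, hs, hsc⟩ := Finset.exists_subset_card_eq h1
    let ε := s.equivFin
    let p : Fin n → V := fun j => (ε.symm (Fin.cast hsc.symm j) : V)
    refine ⟨∅, ⊥, p, fun _ i => i.elim0, by simp, by simp, by simp, ?_, ?_, ?_, ?_, ?_⟩
    · intro j
      exact hs (ε.symm (Fin.cast hsc.symm j)).2
    · intro j i
      exact i.elim0
    · intro j i
      exact i.elim0
    · intro j c _
      funext i
      exact i.elim0
    · intro j j' h
      rw [Submodule.mem_bot, sub_eq_zero] at h
      have := ε.symm.injective (Subtype.ext h)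
      exact Fin.cast_injective _ this
  -- main case
  set q := Fintype.card F with hqdef
  set th := (4 * q ^ 2) ^ (a + r) * n with hth
  have hn1 : 1 ≤ n := by omega
  have hth4 : 4 * q ≤ th := by
    have h1 : 4 * q ^ 2 ≤ (4 * q ^ 2) ^ (a + r) := Nat.le_self_pow (by omega) _
    have h2 : 4 * q ≤ 4 * q ^ 2 := by nlinarith
    calc 4 * q ≤ 4 * q ^ 2 := h2
      _ ≤ (4 * q ^ 2) ^ (a + r) := h1
      _ ≤ (4 * q ^ 2) ^ (a + r) * n := Nat.le_mul_of_pos_right _ (by omega)
  by_cases h0 : ∃ g ∈ D, (∃ x ∈ C, ∃ y ∈ C, x - y = g) ∧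
      th * (Cq F g C).card ≤ EE (Cq F g C) (Dq F g D)
  · obtain ⟨g, hg, ⟨x, hx, y, hy, hxy⟩, hE'⟩ := h0
    have hg0 : g ≠ 0 := fun h => hD.1 (h ▸ hg)
    have hlt := card_Cq_lt F hx hy hxy hg0
    have hne : (Cq F g C).Nonempty := hC.image _
    have : Finite (V ⧸ Submodule.span F {g}) :=
      Finite.of_surjective _ (Submodule.mkQ_surjective (Submodule.span F {g}))
    rcases ihk _ (hk ▸ hlt) (V ⧸ Submodule.span F {g}) (Cq F g C) (Dq F g D)
      (isCone_Dq F g hD) hne hE' rfl with h | h
    · exact Or.inl (hLC F V C D g r hD hg h)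
    · exact Or.inr (hLP F V C D g a n hD hg h)
  · push Not at h0
    rcases hDICH F V C D th hD hth4 hC hE (fun g hg hxy => h0 g hg hxy) with
      ⟨g, hg, hne, hE2⟩ | ⟨y, hy, hne, hE2⟩
    · -- case P
      have hE3 : (4 * q ^ 2) ^ (a - 1 + r) * n * (C2 F g C).card ≤
          EE (C2 F g C) (Dq F g D) := by
        have h1 : th = (4 * q ^ 2) * ((4 * q ^ 2) ^ (a - 1 + r) * n) := by
          rw [hth, show a + r = (a - 1 + r) + 1 by omega, pow_succ]
          ring
        rw [h1, mul_assoc] at hE2
        exact Nat.le_of_mul_le_mul_left hE2 (by positivity)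
      have : Finite (V ⧸ Submodule.span F {g}) :=
        Finite.of_surjective _ (Submodule.mkQ_surjective (Submodule.span F {g}))
      rcases ihN (a - 1 + r) (by omega) (a - 1) r hr rfl (V ⧸ Submodule.span F {g})
        (C2 F g C) (Dq F g D) (isCone_Dq F g hD) hne hE3 with h | h
      · left
        exact hLC F V C D g r hD hg (clique_mono F (Finset.filter_subset _ _) r h)
      · right
        have := hLP2 F V C D g (a - 1) n hD hg h
        rwa [show a - 1 + 1 = a by omega] at this
    · -- case T
      set C1 := (nbr C D y).image (fun x => x - y) with hC1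
      have hC1card : C1.card = (nbr C D y).card := by
        rw [hC1]
        apply Finset.card_image_of_injective
        intro u v h
        simpa using h
      have hC10 : (0 : V) ∉ C1 := by
        intro h
        rw [hC1, Finset.mem_image] at h
        obtain ⟨x, hx, hx0⟩ := h
        rw [nbr, Finset.mem_filter] at hx
        rw [hx0] at hx
        exact hD.1 hx.2
      set th' := (4 * q ^ 2) ^ (a + (r - 1)) * n with hth'
      have hth'1 : 1 ≤ th' := Nat.succ_le_of_lt (by positivity)
      have hE3 : (q * th' + q) * C1.card ≤ EE C1 D := by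
        have h1 : th = (2 * q) * (2 * q * th') := by
          rw [hth, hth', show a + r = (a + (r - 1)) + 1 by omega, pow_succ]
          ring
        rw [h1, mul_assoc] at hE2
        have h2 := Nat.le_of_mul_le_mul_left hE2 (by positivity)
        rw [hC1card, hC1, EE_translate]
        refine le_trans (Nat.mul_le_mul_right _ ?_) h2
        nlinarith
      obtain ⟨φ, hφ1, hφ2⟩ := hFUN F V C1 D th' hD hC10 (hne.image _) hE3
      obtain ⟨hub1, hub2⟩ := hHUB F V C D y φ hD hy
      rcases ihN (a + (r - 1)) (by omega) a (r - 1) (by omega) rfl V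
        (C1.filter (fun x => φ x = 1)) (D.filter (fun x => φ x = 0))
        (isCone_filter F φ hD) hφ1 hφ2 with h | h
      · left
        have := hub1 (r - 1) h
        rwa [show r - 1 + 1 = r by omega] at this
      · right
        exact hub2 a n h

end Pool.Agent.H36.CEM
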