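import Mathlib
import Pool.Agent.H49.CE.Targets
import Pool.Agent.H36.CE.A8

set_option autoImplicit false

/-!
# Module A13: Theorem A (assembly), MP_70000a_co
-/

noncomputable section

namespace Pool.Agent.H36.CEM

open CE
open scoped Classical

lemma frozenMinor_one (F : Type) [Field F] (n : ℕ) (S : Finset (Fin n → F)) :
    FrozenMinor 1 F n S := by
  have hemp : IsEmpty {p : Fin 1 × Fin 1 // p.1 < p.2} := by
    constructor
    rintro ⟨p, hp⟩
    rw [Subsingleton.elim p.1 p.2] at hp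
    exact lt_irrefl _ hp
  refine ⟨∅, fun a => hemp.elim a, by simp, fun a => hemp.elim a, fun a => hemp.elim a, ?_⟩
  intro A
  have hA : A = ∅ := by
    ext a
    exact hemp.elim a
  subst hA
  have key : ∀ (k : ℕ) (X : Set (Fin k → F)), X = ∅ →
      Module.finrank F (Submodule.span F X) = 0 := by
    rintro k _ rfl
    rw [Submodule.span_empty, finrank_bot]
  rw [key n _ (by simp), key n _ rfl, key 1 _ (by simp)]

lemma mem_cone {F : Type} [Field F] [Fintype F] {V : Type} [AddCommGroup V] [Module F V]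
    (S : Finset V) (v : V) : v ∈ cone F S ↔ ∃ c : F, c ≠ 0 ∧ ∃ w ∈ S, c • w = v := by
  unfold cone
  rw [Finset.mem_image]
  constructor
  · rintro ⟨⟨c, w⟩, h, rfl⟩
    rw [Finset.mem_product, Finset.mem_filter] at h
    exact ⟨c, h.1.2, w, h.2, rfl⟩
  · rintro ⟨c, hc, w, hw, rfl⟩
    refine ⟨(c, w), ?_, rfl⟩
    rw [Finset.mem_product, Finset.mem_filter]
    exact ⟨⟨Finset.mem_univ _, hc⟩, hw⟩

theorem partA (hPAIRS : T_PAIRS) (hINIT : T_INIT) (hFC : T_FC) (hFP : T_FP) (hTR : T_TR)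
    (hCONE : T_CONE) (hFM : T_FM) : T_A := by
  intro m hm
  obtain ⟨r, rfl⟩ : ∃ r, m = r + 1 := ⟨m - 1, by omega⟩
  rcases Nat.eq_zero_or_pos r with hr | hr
  · subst hr
    refine ⟨0, ?_⟩
    intro F _ _ n S _ _ hno
    exact absurd (frozenMinor_one F n S) hno
  refine ⟨8 * r + r ^ 2 + r.choose 2 + 3, ?_⟩
  intro F _ _ n S hS0 hSs hno U
  have hq : 2 ≤ Fintype.card F := Fintype.one_lt_card
  set q := Fintype.card F with hqdef
  set n0 := q ^ (r ^ 2 + r.choose 2 + 1) with hn0
  set lam := q * ((4 * q ^ 2) ^ (r + r) * n0) + 1 with hlam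
  have hn0q : q ≤ n0 := Nat.le_self_pow (by omega) q
  -- the hypothesis of the initial step
  have hyp : ∀ (V : Type) [AddCommGroup V] [Module F V] [Finite V] (D : Finset V)
      (φ : V →ₗ[F] F), IsCone F D → (D.filter (fun x => φ x = 1)).Nonempty →
      (lam - 1) * (D.filter (fun x => φ x = 1)).card ≤
        q * EE (D.filter (fun x => φ x = 1)) (D.filter (fun x => φ x = 0)) →
      KM F (r + 1) D := by
    intro V _ _ _ D φ hD hne hE
    have hE2 : (4 * q ^ 2) ^ (r + r) * n0 * (D.filter (fun x => φ x = 1)).card ≤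
        EE (D.filter (fun x => φ x = 1)) (D.filter (fun x => φ x = 0)) := by
      have h1 : lam - 1 = q * ((4 * q ^ 2) ^ (r + r) * n0) := by rw [hlam, Nat.add_sub_cancel]
      rw [h1, mul_assoc] at hE
      exact Nat.le_of_mul_le_mul_left hE (by omega)
    rcases hPAIRS F r r n0 hr hn0q V (D.filter (fun x => φ x = 1)) (D.filter (fun x => φ x = 0))
      (isCone_filter F φ hD) hne hE2 with h | h
    · exact hFC F V D φ r hD h
    · exact hFP F V D φ r hD h
  have hlam1 : 1 ≤ lam := by omega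
  -- the trace on `U`
  let SU : Finset U := Finset.univ.filter (fun u => (u : Fin n → F) ∈ S)
  have hSU0 : ∀ v ∈ SU, v ≠ 0 := by
    intro v hv h
    rw [Finset.mem_filter] at hv
    exact hS0 _ hv.2 (by rw [h]; rfl)
  have hSUs : ∀ v ∈ SU, ∀ w ∈ SU, ∀ c : F, v = c • w → v = w := by
    intro v hv w hw c h
    rw [Finset.mem_filter] at hv hw
    apply Subtype.ext
    exact hSs _ hv.2 _ hw.2 c (by rw [h]; rfl)
  have hSUc : SU.card = (S.filter (fun v => v ∈ U)).card := by
    apply Finset.card_bij (fun (u : U) _ => (u : Fin n → F))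
    · intro u hu
      rw [Finset.mem_filter] at hu ⊢
      exact ⟨hu.2, u.2⟩
    · intro u _ v _ h
      exact Subtype.ext h
    · intro v hv
      rw [Finset.mem_filter] at hv
      exact ⟨⟨v, hv.2⟩, by simp [SU, hv.1], rfl⟩
  obtain ⟨hcone, hcard⟩ := hCONE F U SU hSU0 hSUs
  have hle : (S.filter (fun v => v ∈ U)).card ≤ lam * Module.finrank F U := by
    by_contra hlt
    push Not at hlt
    apply hno
    have h1 : lam * (q - 1) * Module.finrank F U < (cone F SU).card := by
      rw [hcard, hSUc]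
      have hq1 : 0 < q - 1 := by omega
      calc lam * (q - 1) * Module.finrank F U = (q - 1) * (lam * Module.finrank F U) := by ring
        _ < (q - 1) * (S.filter (fun v => v ∈ U)).card := Nat.mul_lt_mul_of_pos_left hlt hq1
    have h2 := hINIT F (r + 1) lam hlam1 hyp U (cone F SU) hcone h1
    have h3 : KM F (r + 1) (cone F S) := by
      apply hTR F (Fin n → F) U (cone F S) (cone F SU) (r + 1) _ h2
      intro u hu
      rw [mem_cone] at hu ⊢
      obtain ⟨c, hc, v, hv, rfl⟩ := hu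
      exact ⟨c, hc, v, (Finset.mem_filter.mp hv).2, rfl⟩
    exact hFM (r + 1) F n S hS0 hSs h3
  refine hle.trans (Nat.mul_le_mul_right _ ?_)
  -- lam ≤ q ^ c
  have h4 : 4 * q ^ 2 ≤ q ^ 4 := by nlinarith [sq_nonneg q, Nat.pow_le_pow_left hq 2]
  have h5 : (4 * q ^ 2) ^ (r + r) ≤ (q ^ 4) ^ (r + r) := Nat.pow_le_pow_left h4 _
  have h6 : q * ((4 * q ^ 2) ^ (r + r) * n0) ≤ q ^ (8 * r + r ^ 2 + r.choose 2 + 2) := by
    calc q * ((4 * q ^ 2) ^ (r + r) * n0) ≤ q * ((q ^ 4) ^ (r + r) * n0) :=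
          Nat.mul_le_mul_left _ (Nat.mul_le_mul_right _ h5)
      _ = q ^ (8 * r + r ^ 2 + r.choose 2 + 2) := by
          rw [hn0, ← pow_mul, ← pow_add, ← pow_succ']
          congr 1
          ring
  calc lam ≤ q ^ (8 * r + r ^ 2 + r.choose 2 + 2) + q ^ (8 * r + r ^ 2 + r.choose 2 + 2) := by
        rw [hlam]
        have : 1 ≤ q ^ (8 * r + r ^ 2 + r.choose 2 + 2) := Nat.one_le_pow _ _ (by omega)
        omega
    _ = 2 * q ^ (8 * r + r ^ 2 + r.choose 2 + 2) := by ring
    _ ≤ q * q ^ (8 * r + r ^ 2 + r.choose 2 + 2) := Nat.mul_le_mul_right _ hq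
    _ = q ^ (8 * r + r ^ 2 + r.choose 2 + 3) := by rw [← pow_succ']

end Pool.Agent.H36.CEM
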