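import Mathlib
import Pool.Agent.H49.CE.Targets
import Pool.Agent.H36.CE.A8

set_option autoImplicit false

/-!
# Module A9: the initial step, MP_70000a_co
-/

noncomputable section

namespace Pool.Agent.H36.CEM

open CE
open scoped Classical

section count

/-- fibres of a surjective additive map -/
lemma card_fiber {M N : Type*} [AddGroup M] [AddGroup N] [Fintype M] [Fintype N]
    (f : M →+ N) (hf : Function.Surjective f) (n : N) :
    Fintype.card N * (Finset.univ.filter (fun m => f m = n)).card = Fintype.card M := by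
  have h1 : (Finset.univ : Finset M).card = ∑ k : N, (Finset.univ.filter (fun m => f m = k)).card :=
    Finset.card_eq_sum_card_fiberwise (fun _ _ => Finset.mem_univ _)
  have h2 : ∀ k : N, (Finset.univ.filter (fun m => f m = k)).card =
      (Finset.univ.filter (fun m => f m = n)).card := by
    intro k
    obtain ⟨a, ha⟩ := hf k
    obtain ⟨b, hb⟩ := hf n
    apply Finset.card_bij (fun m _ => m + (-a + b))
    · intro m hm
      rw [Finset.mem_filter] at hm ⊢
      refine ⟨Finset.mem_univ _, ?_⟩
      rw [map_add, map_add, map_neg, hm.2, ha, hb]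
      simp
    · intro m _ m' _ h
      exact add_right_cancel h
    · intro m hm
      rw [Finset.mem_filter] at hm
      refine ⟨m + -(-a + b), ?_, by simp [add_assoc]⟩
      rw [Finset.mem_filter]
      refine ⟨Finset.mem_univ _, ?_⟩
      rw [map_add, map_neg, map_add, map_neg, hm.2, ha, hb]
      simp
  rw [Finset.sum_congr rfl (fun k _ => h2 k), Finset.sum_const, Finset.card_univ,
    Finset.card_univ, smul_eq_mul] at h1
  exact h1.symm

variable {F : Type} [Field F] {V : Type} [AddCommGroup V] [Module F V]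

lemma exists_functional {k : ℕ} (v : Fin k → V) (hv : LinearIndependent F v) (c : Fin k → F) :
    ∃ φ : V →ₗ[F] F, ∀ i, φ (v i) = c i := by
  let T : (Fin k → F) →ₗ[F] V := Fintype.linearCombination F v
  have hT : LinearMap.ker T = ⊥ := by
    rw [LinearMap.ker_eq_bot']
    intro m hm
    funext i
    exact Fintype.linearIndependent_iff.mp hv m (by
      rw [← hm]
      simp [T, Fintype.linearCombination_apply]) i
  obtain ⟨S, hS⟩ := T.exists_leftInverse_of_injective hT
  refine ⟨(Fintype.linearCombination F c).comp S, ?_⟩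
  intro i
  have h1 : T (Pi.single i 1) = v i := by
    simp [T, Fintype.linearCombination_apply, Pi.single_apply]
  have h2 : S (v i) = Pi.single i 1 := by
    rw [← h1]
    have := LinearMap.congr_fun hS (Pi.single i 1)
    simpa using this
  rw [LinearMap.comp_apply, h2]
  simp [Fintype.linearCombination_apply, Pi.single_apply]

variable [Fintype F] [Finite V]

@[reducible] def fintypeDual (F V : Type) [Field F] [AddCommGroup V] [Module F V] [Fintype F]
    [Finite V] : Fintype (V →ₗ[F] F) :=
  have : Finite (V →ₗ[F] F) := Finite.of_injective (fun f => (f : V → F)) DFunLike.coe_injective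
  Fintype.ofFinite _

attribute [local instance] fintypeDual

/-- number of functionals with prescribed values -/
lemma card_functional {k : ℕ} (v : Fin k → V) (hv : LinearIndependent F v) (c : Fin k → F) :
    Fintype.card F ^ k * (Finset.univ.filter (fun φ : V →ₗ[F] F => ∀ i, φ (v i) = c i)).card =
      Fintype.card (V →ₗ[F] F) := by
  let ev : (V →ₗ[F] F) →+ (Fin k → F) :=
    { toFun := fun φ i => φ (v i)
      map_zero' := rfl
      map_add' := fun _ _ => rfl }
  have hev : Function.Surjective ev := by
    intro c'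
    obtain ⟨φ, hφ⟩ := exists_functional v hv c'
    exact ⟨φ, funext hφ⟩
  have h := card_fiber ev hev c
  rw [Fintype.card_fun, Fintype.card_fin] at h
  rw [← h]
  congr 2
  ext φ
  simp only [Finset.mem_filter, Finset.mem_univ, true_and]
  exact funext_iff.symm

lemma card_functional_one {x : V} (hx : x ≠ 0) :
    Fintype.card F * (Finset.univ.filter (fun φ : V →ₗ[F] F => φ x = 1)).card =
      Fintype.card (V →ₗ[F] F) := by
  have hv : LinearIndependent F ![x] := by
    rw [Fintype.linearIndependent_iff]
    intro g hg i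
    rw [Fin.sum_univ_one] at hg
    rw [Subsingleton.elim i 0]
    exact (smul_eq_zero.mp hg).resolve_right hx
  have h := card_functional ![x] hv ![1]
  rw [pow_one] at h
  rw [← h]
  congr 2
  ext φ
  simp

lemma card_functional_two {x y : V} (hxy : LinearIndependent F ![x, y]) :
    Fintype.card F ^ 2 *
      (Finset.univ.filter (fun φ : V →ₗ[F] F => φ x = 1 ∧ φ y = 1)).card =
      Fintype.card (V →ₗ[F] F) := by
  have h := card_functional ![x, y] hxy ![1, 1]
  rw [← h]
  congr 2
  ext φ
  simp [Fin.forall_fin_two]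

end count

attribute [local instance] fintypeDual

section main

variable {F : Type} [Field F] [Fintype F] {V : Type} [AddCommGroup V] [Module F V] [Finite V]

/-- Non parallel adjacent pairs of `D`. -/
def PP (F : Type) [Field F] {V : Type} [AddCommGroup V] [Module F V] (D : Finset V) :
    Finset (V × V) :=
  (D ×ˢ D).filter (fun p => p.1 - p.2 ∈ D ∧ LinearIndependent F ![p.1, p.2])

/-- Pairs of distinct elements of `D` in the same nonzero class modulo `g`. -/
def MM (F : Type) [Field F] {V : Type} [AddCommGroup V] [Module F V] (D : Finset V) (g : V) :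
    Finset (V × V) :=
  (D ×ˢ D).filter (fun p => p.1 ≠ p.2 ∧
    (Submodule.span F {g}).mkQ p.1 = (Submodule.span F {g}).mkQ p.2 ∧
    (Submodule.span F {g}).mkQ p.1 ≠ 0)

lemma card_units : (Finset.univ.filter (fun c : F => c ≠ 0)).card = Fintype.card F - 1 := by
  rw [Finset.filter_ne', Finset.card_erase_of_mem (Finset.mem_univ _), Finset.card_univ]

omit [Fintype F] [Finite V] in
lemma MM_sub {D : Finset V} (hD : IsCone F D) {g : V} (hg : g ∈ D) {p : V × V}
    (hp : p ∈ MM F D g) : p ∈ PP F D ∧ ∃ c : F, c ≠ 0 ∧ g = c • (p.1 - p.2) := by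
  rw [MM, Finset.mem_filter, Finset.mem_product] at hp
  obtain ⟨⟨h1, h2⟩, hne, heq, h0⟩ := hp
  have hmem : p.1 - p.2 ∈ Submodule.span F {g} := by
    rw [← Submodule.Quotient.mk_eq_zero, ← Submodule.mkQ_apply, map_sub, heq, sub_self]
  obtain ⟨c, hc⟩ := Submodule.mem_span_singleton.mp hmem
  have hc0 : c ≠ 0 := by
    intro h
    rw [h, zero_smul] at hc
    exact hne (sub_eq_zero.mp hc.symm)
  refine ⟨?_, c⁻¹, inv_ne_zero hc0, by rw [← hc, smul_smul, inv_mul_cancel₀ hc0, one_smul]⟩
  rw [PP, Finset.mem_filter, Finset.mem_product]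
  refine ⟨⟨h1, h2⟩, ?_, ?_⟩
  · rw [← hc]
    exact hD.2 c hc0 g hg
  · rw [LinearIndependent.pair_iff]
    intro s t hst
    have hq : s • (Submodule.span F {g}).mkQ p.1 + t • (Submodule.span F {g}).mkQ p.2 = 0 := by
      rw [← map_smul, ← map_smul, ← map_add, hst, map_zero]
    rw [← heq, ← add_smul] at hq
    have hst0 : s + t = 0 := (smul_eq_zero.mp hq).resolve_right h0
    have ht : t = -s := by linear_combination hst0
    rw [ht, neg_smul, ← sub_eq_add_neg, ← smul_sub] at hst
    have hs : s = 0 := (smul_eq_zero.mp hst).resolve_right (sub_ne_zero.mpr hne)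
    exact ⟨hs, by rw [ht, hs, neg_zero]⟩

omit [Finite V] in
lemma sum_MM_le {D : Finset V} (hD : IsCone F D) :
    ∑ g ∈ D, (MM F D g).card ≤ (Fintype.card F - 1) * (PP F D).card := by
  have h1 : ∀ g ∈ D, (MM F D g).card =
      ((PP F D).filter (fun p => p ∈ MM F D g)).card := by
    intro g hg
    congr 1
    ext p
    rw [Finset.mem_filter]
    exact ⟨fun h => ⟨(MM_sub hD hg h).1, h⟩, fun h => h.2⟩
  rw [Finset.sum_congr rfl h1]
  have h2 : ∑ g ∈ D, ((PP F D).filter (fun p => p ∈ MM F D g)).card =
      ∑ p ∈ PP F D, (D.filter (fun g => p ∈ MM F D g)).card := by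
    simp only [Finset.card_filter]
    exact Finset.sum_comm
  rw [h2]
  have h3 : ∀ p ∈ PP F D, (D.filter (fun g => p ∈ MM F D g)).card ≤ Fintype.card F - 1 := by
    intro p _
    rw [← card_units (F := F)]
    refine (Finset.card_le_card (t := (Finset.univ.filter (fun c : F => c ≠ 0)).image
      (fun c => c • (p.1 - p.2))) ?_).trans Finset.card_image_le
    intro g hg
    rw [Finset.mem_filter] at hg
    obtain ⟨_, c, hc, hgc⟩ := MM_sub hD hg.1 hg.2
    rw [Finset.mem_image]
    exact ⟨c, by rw [Finset.mem_filter]; exact ⟨Finset.mem_univ _, hc⟩, hgc.symm⟩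
  refine (Finset.sum_le_sum h3).trans ?_
  rw [Finset.sum_const, smul_eq_mul, mul_comm]

omit [Finite V] in
lemma le_MM {D : Finset V} (hD : IsCone F D) (g : V) :
    D.card ≤ (Fintype.card F - 1) + (Dq F g D).card + (MM F D g).card := by
  set π := (Submodule.span F {g}).mkQ with hπ
  set D0 := D.filter (fun x => π x = 0) with hD0
  set D1 := D.filter (fun x => ¬ π x = 0) with hD1
  have hsplit : D0.card + D1.card = D.card := Finset.card_filter_add_card_filter_not _
  have h0 : D0.card ≤ Fintype.card F - 1 := by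
    rw [← card_units (F := F)]
    refine (Finset.card_le_card (t := (Finset.univ.filter (fun c : F => c ≠ 0)).image
      (fun c => c • g)) ?_).trans Finset.card_image_le
    intro x hx
    rw [hD0, Finset.mem_filter] at hx
    have hmem : x ∈ Submodule.span F {g} := by
      rw [← Submodule.Quotient.mk_eq_zero]
      exact hx.2
    obtain ⟨c, hc⟩ := Submodule.mem_span_singleton.mp hmem
    rw [Finset.mem_image]
    refine ⟨c, ?_, hc⟩
    rw [Finset.mem_filter]
    refine ⟨Finset.mem_univ _, ?_⟩
    rintro rfl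
    rw [zero_smul] at hc
    exact hD.1 (hc ▸ hx.1)
  -- representatives
  have hrep : ∀ l ∈ Dq F g D, ∃ x ∈ D1, π x = l := by
    intro l hl
    rw [Dq, Finset.mem_erase, Finset.mem_image] at hl
    obtain ⟨hl0, x, hx, hxl⟩ := hl
    refine ⟨x, ?_, hxl⟩
    rw [hD1, Finset.mem_filter]
    refine ⟨hx, ?_⟩
    show ¬ π x = 0
    rw [show π x = l from hxl]
    exact hl0
  choose! s hs1 hs2 using hrep
  have hπD : ∀ x ∈ D1, π x ∈ Dq F g D := by
    intro x hx
    rw [hD1, Finset.mem_filter] at hx
    rw [Dq, Finset.mem_erase, Finset.mem_image]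
    exact ⟨hx.2, x, hx.1, rfl⟩
  set R := D1.filter (fun x => x = s (π x)) with hR
  set R' := D1.filter (fun x => ¬ x = s (π x)) with hR'
  have hsplit2 : R.card + R'.card = D1.card := Finset.card_filter_add_card_filter_not _
  have h1 : R.card ≤ (Dq F g D).card := by
    refine (Finset.card_le_card (t := (Dq F g D).image s) ?_).trans Finset.card_image_le
    intro x hx
    rw [hR, Finset.mem_filter] at hx
    rw [Finset.mem_image]
    exact ⟨π x, hπD x hx.1, hx.2.symm⟩
  have h2 : R'.card ≤ (MM F D g).card := by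
    apply Finset.card_le_card_of_injOn (fun x => (x, s (π x)))
    · intro x hx
      have hx' : x ∈ R' := hx
      rw [hR', Finset.mem_filter] at hx'
      have h3 := hs1 (π x) (hπD x hx'.1)
      have h4 := hs2 (π x) (hπD x hx'.1)
      have h5 : x ∈ D ∧ ¬ π x = 0 := by
        have := hx'.1
        rw [hD1, Finset.mem_filter] at this
        exact this
      rw [hD1, Finset.mem_filter] at h3
      show (x, s (π x)) ∈ MM F D g
      rw [MM, Finset.mem_filter, Finset.mem_product]
      exact ⟨⟨h5.1, h3.1⟩, hx'.2, h4.symm, h5.2⟩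
    · intro x _ y _ h
      exact (Prod.mk.inj h).1
  omega

end main

theorem initStep (hKML : T_KML) : T_INIT := by
  intro F _ _ m lam hlam H V _ _ _ D hD hcard
  have hq : 2 ≤ Fintype.card F := Fintype.one_lt_card
  obtain ⟨k, hk⟩ : ∃ k, k = Module.finrank F V := ⟨_, rfl⟩
  induction k using Nat.strong_induction_on generalizing V D with
  | _ k ih =>
  have : Module.Finite F V := Module.Finite.of_finite
  have hquot : ∀ g ∈ D, Module.finrank F (V ⧸ Submodule.span F {g}) + 1 = Module.finrank F V := by
    intro g hg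
    have hg0 : g ≠ 0 := fun h => hD.1 (h ▸ hg)
    rw [← finrank_span_singleton (K := F) hg0]
    exact Submodule.finrank_quotient_add_finrank _
  by_cases h0 : ∃ g ∈ D, lam * (Fintype.card F - 1) *
      Module.finrank F (V ⧸ Submodule.span F {g}) < (Dq F g D).card
  · obtain ⟨g, hg, h⟩ := h0
    have hfin : Finite (V ⧸ Submodule.span F {g}) :=
      Finite.of_surjective _ (Submodule.mkQ_surjective (Submodule.span F {g}))
    have hlt : Module.finrank F (V ⧸ Submodule.span F {g}) < k := by
      have := hquot g hg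
      omega
    exact hKML F V D g m hD hg (ih _ hlt (V ⧸ Submodule.span F {g}) (Dq F g D)
      (isCone_Dq F g hD) h rfl)
  push Not at h0
  by_contra hno
  have hDpos : 0 < D.card := lt_of_le_of_lt (Nat.zero_le _) hcard
  -- many non parallel pairs
  have hM : ∀ g ∈ D, (lam - 1) * (Fintype.card F - 1) ≤ (MM F D g).card := by
    intro g hg
    have h1 := le_MM hD g
    have h2 := h0 g hg
    have h3 := hquot g hg
    rw [← h3] at hcard
    obtain ⟨l, rfl⟩ : ∃ l, lam = l + 1 := ⟨lam - 1, by omega⟩
    rw [Nat.add_sub_cancel]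
    have h4 : (l + 1) * (Fintype.card F - 1) *
        (Module.finrank F (V ⧸ Submodule.span F {g}) + 1) =
        (l + 1) * (Fintype.card F - 1) * Module.finrank F (V ⧸ Submodule.span F {g}) +
        l * (Fintype.card F - 1) + (Fintype.card F - 1) := by ring
    rw [h4] at hcard
    omega
  have hP : (lam - 1) * D.card ≤ (PP F D).card := by
    have h1 := sum_MM_le hD
    have h2 : D.card * ((lam - 1) * (Fintype.card F - 1)) ≤ ∑ g ∈ D, (MM F D g).card := by
      rw [← smul_eq_mul]
      exact Finset.card_nsmul_le_sum D _ _ hM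
    have h3 : (Fintype.card F - 1) * ((lam - 1) * D.card) ≤
        (Fintype.card F - 1) * (PP F D).card := by
      calc (Fintype.card F - 1) * ((lam - 1) * D.card) =
            D.card * ((lam - 1) * (Fintype.card F - 1)) := by ring
        _ ≤ _ := h2.trans h1
    exact Nat.le_of_mul_le_mul_left h3 (by omega)
  -- averaging
  let Cf : (V →ₗ[F] F) → Finset V := fun φ => D.filter (fun x => φ x = 1)
  let Df : (V →ₗ[F] F) → Finset V := fun φ => D.filter (fun x => φ x = 0)
  have hC : Fintype.card F * ∑ φ : V →ₗ[F] F, (Cf φ).card =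
      D.card * Fintype.card (V →ₗ[F] F) := by
    have h1 : ∑ φ : V →ₗ[F] F, (Cf φ).card =
        ∑ x ∈ D, (Finset.univ.filter (fun φ : V →ₗ[F] F => φ x = 1)).card := by
      simp only [Cf, Finset.card_filter]
      exact Finset.sum_comm
    have h2 : ∀ x ∈ D, Fintype.card F *
        (Finset.univ.filter (fun φ : V →ₗ[F] F => φ x = 1)).card = Fintype.card (V →ₗ[F] F) :=
      fun x hx => card_functional_one (fun h => hD.1 (by rw [← h]; exact hx))
    rw [h1, Finset.mul_sum, Finset.sum_congr rfl h2, Finset.sum_const, smul_eq_mul]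
  have hE : (PP F D).card * Fintype.card (V →ₗ[F] F) ≤
      Fintype.card F ^ 2 * ∑ φ : V →ₗ[F] F, EE (Cf φ) (Df φ) := by
    have h1 : ∑ p ∈ PP F D,
        (Finset.univ.filter (fun φ : V →ₗ[F] F => φ p.1 = 1 ∧ φ p.2 = 1)).card =
        ∑ φ : V →ₗ[F] F, ((PP F D).filter (fun p => φ p.1 = 1 ∧ φ p.2 = 1)).card := by
      simp only [Finset.card_filter]
      exact Finset.sum_comm
    have h3 : ∀ p ∈ PP F D, Fintype.card F ^ 2 *
        (Finset.univ.filter (fun φ : V →ₗ[F] F => φ p.1 = 1 ∧ φ p.2 = 1)).card =
        Fintype.card (V →ₗ[F] F) := fun p hp => card_functional_two (by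
          rw [PP, Finset.mem_filter] at hp
          exact hp.2.2)
    have h2 : (PP F D).card * Fintype.card (V →ₗ[F] F) = Fintype.card F ^ 2 *
        ∑ φ : V →ₗ[F] F, ((PP F D).filter (fun p => φ p.1 = 1 ∧ φ p.2 = 1)).card := by
      rw [← h1, Finset.mul_sum, Finset.sum_congr rfl h3, Finset.sum_const, smul_eq_mul]
    rw [h2]
    refine Nat.mul_le_mul_left _ (Finset.sum_le_sum ?_)
    intro φ _
    apply Finset.card_le_card
    intro p hp
    rw [Finset.mem_filter, PP, Finset.mem_filter, Finset.mem_product] at hp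
    obtain ⟨⟨⟨h3, h4⟩, h5, _⟩, h6, h7⟩ := hp
    rw [Finset.mem_filter, Finset.mem_product]
    refine ⟨⟨?_, ?_⟩, ?_⟩
    · exact Finset.mem_filter.mpr ⟨h3, h6⟩
    · exact Finset.mem_filter.mpr ⟨h4, h7⟩
    · exact Finset.mem_filter.mpr ⟨h5, by rw [map_sub, h6, h7, sub_self]⟩
  have hlt : ∑ φ : V →ₗ[F] F, Fintype.card F * EE (Cf φ) (Df φ) <
      ∑ φ : V →ₗ[F] F, (lam - 1) * (Cf φ).card := by
    apply Finset.sum_lt_sum
    · intro φ _
      rcases (Cf φ).eq_empty_or_nonempty with h | h
      · have : EE (Cf φ) (Df φ) = 0 := by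
          have := EE_le (Cf φ) (Df φ)
          rw [h, Finset.card_empty] at this
          rw [h]
          omega
        rw [this, h, Finset.card_empty, mul_zero, mul_zero]
      · by_contra hc
        push Not at hc
        exact hno (H V D φ hD h hc.le)
    · obtain ⟨x, hx⟩ := Finset.card_pos.mp hDpos
      have hx0 : x ≠ 0 := fun h => hD.1 (h ▸ hx)
      have hv : LinearIndependent F ![x] := by
        rw [Fintype.linearIndependent_iff]
        intro g hg i
        rw [Fin.sum_univ_one] at hg
        rw [Subsingleton.elim i 0]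
        exact (smul_eq_zero.mp hg).resolve_right hx0
      obtain ⟨φ, hφ⟩ := exists_functional ![x] hv ![1]
      have hφx : φ x = 1 := hφ 0
      refine ⟨φ, Finset.mem_univ _, ?_⟩
      by_contra hc
      push Not at hc
      exact hno (H V D φ hD ⟨x, Finset.mem_filter.mpr ⟨hx, hφx⟩⟩ hc)
  rw [← Finset.mul_sum, ← Finset.mul_sum] at hlt
  have h5 : Fintype.card F * (Fintype.card F * ∑ φ : V →ₗ[F] F, EE (Cf φ) (Df φ)) <
      Fintype.card F * ((lam - 1) * ∑ φ : V →ₗ[F] F, (Cf φ).card) :=
    Nat.mul_lt_mul_of_pos_left hlt (by omega)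
  have h6 : Fintype.card F * ((lam - 1) * ∑ φ : V →ₗ[F] F, (Cf φ).card) =
      (lam - 1) * D.card * Fintype.card (V →ₗ[F] F) := by
    calc _ = (lam - 1) * (Fintype.card F * ∑ φ : V →ₗ[F] F, (Cf φ).card) := by ring
      _ = _ := by rw [hC]; ring
  have h7 : (lam - 1) * D.card * Fintype.card (V →ₗ[F] F) ≤
      (PP F D).card * Fintype.card (V →ₗ[F] F) := Nat.mul_le_mul_right _ hP
  have h8 : Fintype.card F * (Fintype.card F * ∑ φ : V →ₗ[F] F, EE (Cf φ) (Df φ)) =
      Fintype.card F ^ 2 * ∑ φ : V →ₗ[F] F, EE (Cf φ) (Df φ) := by ring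
  rw [h6, h8] at h5
  exact absurd (h7.trans hE) (not_le.mpr h5)

end Pool.Agent.H36.CEM
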