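import Pool.Agent.H99.CE.Targets

/-!
# ASP: one step for a concave function
-/

set_option autoImplicit false

open MeasureTheory ProbabilityTheory Filter Topology
open scoped ENNReal
open Pool.Agent.H95 Pool.Agent.H95.Cop Pool.Agent.H96.Cop Pool.Agent.H99.CE

namespace Pool.Agent.H36.CE

theorem EE_le (F : ℕ → (ℕ → ℝ) → ℝ≥0∞) (tt : ℝ≥0∞) (b : ℕ) (x : ℕ → ℝ) :
    EE F tt b x ≤ F b x := by
  unfold EE
  split_ifs with h1 h2
  · exact zero_le
  · rw [h1]
  · exact le_rfl

theorem EE_meas (F : ℕ → (ℕ → ℝ) → ℝ≥0∞) (tt : ℝ≥0∞) (b : ℕ) (hF : Measurable (F b)) :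
    Measurable (EE F tt b) := by
  by_cases h : b = 0
  · subst h
    have h1 : EE F tt 0 = fun x => if F 0 x ≤ tt then 0 else F 0 x := by
      funext x
      unfold EE
      rw [if_pos rfl]
    rw [h1]
    exact Measurable.ite (measurableSet_le hF measurable_const) measurable_const hF
  · have h1 : EE F tt b = F b := by
      funext x
      unfold EE
      rw [if_neg h]
    rw [h1]
    exact hF

theorem EE_dep (F : ℕ → (ℕ → ℝ) → ℝ≥0∞) (tt : ℝ≥0∞) (b t : ℕ) (hF : DepLt t (F b)) :
    DepLt t (EE F tt b) := by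
  intro x x' h
  have h1 := hF x x' h
  by_cases hb : b = 0
  · subst hb
    unfold EE
    rw [if_pos rfl, if_pos rfl, h1]
  · unfold EE
    rw [if_neg hb, if_neg hb, h1]

theorem ab_ne_top {lam : ℝ≥0∞} {Kb : ℕ → ℝ≥0∞} (hl : lam ≠ ∞) (hK : ∀ D, Kb D ≠ ∞) (M p : ℕ) :
    ab lam Kb M p ≠ ∞ := by
  unfold ab
  refine ENNReal.add_ne_top.2 ⟨?_, ENNReal.mul_ne_top hl (ENNReal.sum_ne_top.2 fun i _ => hK _)⟩
  split_ifs
  · exact ENNReal.one_ne_top
  · exact ENNReal.zero_ne_top

/-- the recursion for the starts -/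
theorem ab_rec {lam : ℝ≥0∞} {Kb l : ℕ → ℝ≥0∞}
    (hs : ∀ D, 1 ≤ D → l D + lam * ∑ i ∈ Finset.Ico 1 D, Kb i * l (D - i) ≤ Kb D) (M p : ℕ) :
    (if p < M then 1 else 0) + lam * ∑ i ∈ Finset.range p, ab lam Kb M i * l (p - i) ≤
      ab lam Kb M p := by
  have h1 : ∑ i ∈ Finset.range p, ab lam Kb M i * l (p - i) =
      ∑ i ∈ Finset.range p, (if i < M then l (p - i) else 0) +
        lam * ∑ i ∈ Finset.range p, ∑ i' ∈ Finset.range (min M i), Kb (i - i') * l (p - i) := by
    rw [Finset.mul_sum, ← Finset.sum_add_distrib]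
    refine Finset.sum_congr rfl fun i _ => ?_
    unfold ab
    rw [add_mul, ← Finset.sum_mul, mul_assoc]
    congr 1
    split_ifs
    · rw [one_mul]
    · rw [zero_mul]
  have h2 : ∑ i ∈ Finset.range p, (if i < M then l (p - i) else 0) =
      ∑ i' ∈ Finset.range (min M p), l (p - i') := by
    rw [← Finset.sum_filter]
    refine Finset.sum_congr ?_ fun _ _ => rfl
    ext i
    rw [Finset.mem_filter, Finset.mem_range, Finset.mem_range]
    omega
  have h3 : ∑ i ∈ Finset.range p, ∑ i' ∈ Finset.range (min M i), Kb (i - i') * l (p - i) =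
      ∑ i' ∈ Finset.range (min M p), ∑ t ∈ Finset.Ico 1 (p - i'), Kb t * l (p - i' - t) := by
    rw [Finset.sum_comm' (s := Finset.range p) (t := fun i => Finset.range (min M i))
      (t' := Finset.range (min M p)) (s' := fun i' => Finset.Ico (i' + 1) p)]
    · refine Finset.sum_congr rfl fun i' hi' => ?_
      refine Finset.sum_nbij' (fun i => i - i') (fun t => t + i') ?_ ?_ ?_ ?_ ?_
      · intro i hi
        rw [Finset.mem_Ico] at hi ⊢
        omega
      · intro t ht
        rw [Finset.mem_Ico] at ht ⊢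
        omega
      · intro i hi
        rw [Finset.mem_Ico] at hi
        show i - i' + i' = i
        omega
      · intro t _
        show t + i' - i' = t
        omega
      · intro i hi
        rw [Finset.mem_Ico] at hi
        have h4 : p - i = p - i' - (i - i') := by omega
        rw [h4]
    · intro i i'
      rw [Finset.mem_range, Finset.mem_range, Finset.mem_range, Finset.mem_Ico]
      omega
  rw [h1, h2, h3, Finset.mul_sum, ← Finset.sum_add_distrib]
  unfold ab
  gcongr with i' hi'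
  have hi := Finset.mem_range.1 hi'
  exact hs (p - i') (by omega)

theorem sum_filt (f : ℕ → ℝ≥0∞) (M L : ℕ) (h : M ≤ L) :
    ∑ i ∈ Finset.range L, (if i < M then 1 else 0) * f i = ∑ i ∈ Finset.range M, f i := by
  have h1 : ∀ i ∈ Finset.range L, (if i < M then (1 : ℝ≥0∞) else 0) * f i =
      if i < M then f i else 0 := by
    intro i _
    split_ifs
    · rw [one_mul]
    · rw [zero_mul]
  rw [Finset.sum_congr rfl h1, ← Finset.sum_filter]
  refine Finset.sum_congr ?_ fun _ _ => rfl
  ext i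
  rw [Finset.mem_filter, Finset.mem_range, Finset.mem_range]
  omega

theorem pf_ASP (hCCP : T_CCP) (hIND : T_IND) (hLOW : T_LOW) (hVIN : T_VIN) : T_ASP := by
  intro ν _ B M J F l C V φ tt lam Kb θ u e1 Es mh uh kh v w h Sh hSh
  rcases Nat.eq_zero_or_pos J with hJ | hJ
  · subst hJ
    rw [Finset.sum_range_zero]
    exact zero_le
  have hML : M ≤ J * M := Nat.le_mul_of_pos_left M hJ
  obtain ⟨hmono, hφm, _, hφc, _, _⟩ := hCCP φ h.cc
  have hF := (h.ch 0 hJ).mF
  have habf : ∀ p, ab lam Kb M p ≠ ∞ := ab_ne_top h.lf h.Kf M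
  -- one target
  have h1 : ∀ j < J, ∫⁻ x, φ (∑ i ∈ Finset.range M, C j i (shift (i * B) x)) ∂(iid ν) ≤
      φ (lam * ∑ p ∈ TT M j, ab lam Kb M p) + ∑ p ∈ Finset.range (J * M),
        ∑ b ∈ Finset.range (J * M - p), ∫⁻ x, φ (ab lam Kb M p *
          (EE F tt b x * V j (p + b) (shift ((b + 1) * B) x))) ∂(iid ν) := by
    intro j hj
    have h2 := hLOW ν B (J * M) F l (TT M j) (C j) (V j) (h.ch j hj) φ h.cc tt lam h.hl
      (fun i => if i < M then 1 else 0) (ab lam Kb M) 0 (lam * ∑ p ∈ TT M j, ab lam Kb M p)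
      (fun p _ => ab_rec h.sup M p) (by
        rw [zero_add]
        gcongr
        exact Finset.inter_subset_left)
    refine le_trans (le_of_eq ?_) h2
    refine lintegral_congr fun x => ?_
    rw [zero_add]
    exact congrArg φ (sum_filt (fun i => C j i (shift (i * B) x)) M (J * M) hML).symm
  -- the induction
  have h2 : ∀ p < J * M, ∀ b < J * M - p, ∑ j ∈ Finset.range J, ∫⁻ x, φ (ab lam Kb M p *
      (EE F tt b x * V j (p + b) (shift ((b + 1) * B) x))) ∂(iid ν) ≤
      mx θ (ab lam Kb M p) * ((∫⁻ x, EE F tt b x ^ θ * u (EE F tt b x) ∂(iid ν)) * v +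
        (∫⁻ x, EE F tt b x ^ θ ∂(iid ν)) * w) := by
    intro p hp b hb
    have hq : p + b < J * M := by omega
    have hEm := EE_meas F tt b (hF b).1
    have hVm : ∀ j < J, Measurable (V j (p + b)) := fun j hj => (h.ch j hj).mV (p + b)
    have hEf : ∀ x, EE F tt b x ≠ ∞ := fun x =>
      ne_top_of_le_ne_top ((hF b).2.2 x) (EE_le F tt b x)
    have e1' : ∀ j < J, Measurable (fun z : ℝ≥0∞ × (ℕ → ℝ) =>
        φ (ab lam Kb M p * (z.1 * V j (p + b) z.2))) := fun j hj =>
      hφm.comp ((measurable_fst.mul ((hVm j hj).comp measurable_snd)).const_mul _)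
    have e2 : ∀ j < J, ∫⁻ x, φ (ab lam Kb M p *
        (EE F tt b x * V j (p + b) (shift ((b + 1) * B) x))) ∂(iid ν) =
        ∫⁻ x, (∫⁻ y, φ (ab lam Kb M p * (EE F tt b x * V j (p + b) y)) ∂(iid ν)) ∂(iid ν) :=
      fun j hj => (hIND ν ((b + 1) * B) (EE F tt b)
        (fun z => φ (ab lam Kb M p * (z.1 * V j (p + b) z.2))) hEm
        (EE_dep F tt b _ (hF b).2.1) (e1' j hj)).1
    have e3 : ∀ j < J, Measurable (fun x => ∫⁻ y, φ (ab lam Kb M p *
        (EE F tt b x * V j (p + b) y)) ∂(iid ν)) := by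
      intro j hj
      have e4 : Measurable (fun z : (ℕ → ℝ) × (ℕ → ℝ) =>
          φ (ab lam Kb M p * (EE F tt b z.1 * V j (p + b) z.2))) :=
        hφm.comp (((hEm.comp measurable_fst).mul ((hVm j hj).comp measurable_snd)).const_mul _)
      exact e4.lintegral_prod_right'
    rw [Finset.sum_congr rfl fun j hj => e2 j (Finset.mem_range.1 hj),
      ← lintegral_finsetSum _ fun j hj => e3 j (Finset.mem_range.1 hj)]
    -- one value
    have e5 : ∀ x, ∑ j ∈ Finset.range J, ∫⁻ y, φ (ab lam Kb M p *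
        (EE F tt b x * V j (p + b) y)) ∂(iid ν) ≤ mx θ (ab lam Kb M p) *
          (EE F tt b x ^ θ * u (EE F tt b x) * v + EE F tt b x ^ θ * w) := by
      intro x
      rcases le_total (ab lam Kb M p) 1 with h6 | h6
      · have e7 : ∀ j, ∀ y, φ (ab lam Kb M p * (EE F tt b x * V j (p + b) y)) =
            φ ((ab lam Kb M p * EE F tt b x) * V j (p + b) y) := fun j y => by rw [mul_assoc]
        have e8 : ab lam Kb M p * EE F tt b x ≠ ∞ := ENNReal.mul_ne_top (habf p) (hEf x)
        have e9 : ab lam Kb M p * EE F tt b x ≤ EE F tt b x := mul_le_of_le_one_left' h6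
        simp only [e7]
        refine (hVIN ν B M J F l C V φ tt lam Kb θ u e1 Es mh uh kh v w h (p + b) hq _
          e8).trans ?_
        have e10 := h.um _ _ e9 (hEf x)
        rw [ENNReal.mul_rpow_of_nonneg _ _ h.θ0.le]
        calc ab lam Kb M p ^ θ * EE F tt b x ^ θ * (u (ab lam Kb M p * EE F tt b x) * v + w) ≤
            mx θ (ab lam Kb M p) * EE F tt b x ^ θ * (u (EE F tt b x) * v + w) := by
              gcongr
              exact le_max_right _ _
          _ = _ := by ring
      · have e7 : ∀ j < J, ∫⁻ y, φ (ab lam Kb M p * (EE F tt b x * V j (p + b) y)) ∂(iid ν) ≤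
            ab lam Kb M p * ∫⁻ y, φ (EE F tt b x * V j (p + b) y) ∂(iid ν) := by
          intro j hj
          have e8 : Measurable (fun y => φ (EE F tt b x * V j (p + b) y)) :=
            hφm.comp ((hVm j hj).const_mul _)
          rw [← lintegral_const_mul _ e8]
          exact lintegral_mono fun y => hφc _ _ h6 (habf p)
        refine (Finset.sum_le_sum fun j hj => e7 j (Finset.mem_range.1 hj)).trans ?_
        rw [← Finset.mul_sum]
        have e8 := hVIN ν B M J F l C V φ tt lam Kb θ u e1 Es mh uh kh v w h (p + b) hq _ (hEf x)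
        calc ab lam Kb M p * ∑ j ∈ Finset.range J,
              ∫⁻ y, φ (EE F tt b x * V j (p + b) y) ∂(iid ν) ≤
            mx θ (ab lam Kb M p) * (EE F tt b x ^ θ * (u (EE F tt b x) * v + w)) := by
              gcongr
              exact le_max_left _ _
          _ = _ := by ring
    have hP : Measurable (fun x => EE F tt b x ^ θ) := hEm.pow_const θ
    have hPu : Measurable (fun x => EE F tt b x ^ θ * u (EE F tt b x)) := hP.mul (h.mu.comp hEm)
    refine (lintegral_mono e5).trans (le_of_eq ?_)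
    have hPs : Measurable (fun x => EE F tt b x ^ θ * u (EE F tt b x) * v +
        EE F tt b x ^ θ * w) := (hPu.mul_const v).add (hP.mul_const w)
    rw [lintegral_const_mul _ hPs, lintegral_add_left (hPu.mul_const v), lintegral_mul_const _ hPu, lintegral_mul_const _ hP]
  -- the sum
  calc ∑ j ∈ Finset.range J, ∫⁻ x, φ (∑ i ∈ Finset.range M, C j i (shift (i * B) x)) ∂(iid ν)
      ≤ ∑ j ∈ Finset.range J, (φ (lam * ∑ p ∈ TT M j, ab lam Kb M p) +
        ∑ p ∈ Finset.range (J * M), ∑ b ∈ Finset.range (J * M - p),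
          ∫⁻ x, φ (ab lam Kb M p *
            (EE F tt b x * V j (p + b) (shift ((b + 1) * B) x))) ∂(iid ν)) :=
        Finset.sum_le_sum fun j hj => h1 j (Finset.mem_range.1 hj)
    _ = ∑ j ∈ Finset.range J, φ (lam * ∑ p ∈ TT M j, ab lam Kb M p) +
        ∑ p ∈ Finset.range (J * M), ∑ b ∈ Finset.range (J * M - p), ∑ j ∈ Finset.range J,
          ∫⁻ x, φ (ab lam Kb M p *
            (EE F tt b x * V j (p + b) (shift ((b + 1) * B) x))) ∂(iid ν) := by
        rw [Finset.sum_add_distrib, Finset.sum_comm]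
        congr 1
        refine Finset.sum_congr rfl fun p _ => ?_
        exact Finset.sum_comm
    _ ≤ ∑ j ∈ Finset.range J, φ (lam * ∑ p ∈ TT M j, ab lam Kb M p) +
        ∑ p ∈ Finset.range (J * M), ∑ b ∈ Finset.range (J * M - p),
          mx θ (ab lam Kb M p) * ((∫⁻ x, EE F tt b x ^ θ * u (EE F tt b x) ∂(iid ν)) * v +
            (∫⁻ x, EE F tt b x ^ θ ∂(iid ν)) * w) := by
        gcongr with p hp b hb
        exact h2 p (Finset.mem_range.1 hp) b (Finset.mem_range.1 hb)
    _ ≤ ∑ j ∈ Finset.range J, φ (lam * ∑ p ∈ TT M j, ab lam Kb M p) +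
        ∑ p ∈ Finset.range (J * M), mx θ (ab lam Kb M p) * (uh * v + mh * w) := by
        gcongr with p hp
        rw [← Finset.mul_sum]
        gcongr
        rw [Finset.sum_add_distrib, ← Finset.sum_mul, ← Finset.sum_mul]
        have hsub : Finset.range (J * M - p) ⊆ Finset.range (J * M) :=
          Finset.range_subset_range.2 (Nat.sub_le _ _)
        have k1 := (Finset.sum_le_sum_of_subset hsub (f := fun b =>
          ∫⁻ x, EE F tt b x ^ θ * u (EE F tt b x) ∂(iid ν))).trans h.hh
        have k2 := (Finset.sum_le_sum_of_subset hsub (f := fun b =>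
          ∫⁻ x, EE F tt b x ^ θ ∂(iid ν))).trans h.hm
        gcongr
    _ ≤ ∑ j ∈ Finset.range J, φ (lam * ∑ p ∈ TT M j, ab lam Kb M p) +
        Sh * (uh * v + mh * w) := by
        rw [← Finset.sum_mul]
        gcongr

end Pool.Agent.H36.CE
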