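import Pool.Agent.H99.CE.Targets

/-!
# CCP: properties of the class of concave functions
-/

set_option autoImplicit false

open MeasureTheory ProbabilityTheory Filter Topology
open scoped ENNReal
open Pool.Agent.H95 Pool.Agent.H95.Cop Pool.Agent.H96.Cop Pool.Agent.H99.CE

namespace Pool.Agent.H36.CE

theorem pf_CCP : T_CCP := by
  intro φ hφ
  obtain ⟨h0, ι, α, β, hne, hfin, hinf⟩ := hφ
  have hle : ∀ i x, φ x ≤ α i + β i * x := fun i x => (hinf x).le.trans (iInf_le _ i)
  have hmono : Monotone φ := by
    intro x y hxy
    rw [hinf x, hinf y]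
    exact iInf_mono fun i => by gcongr
  refine ⟨hmono, hmono.measurable, ?_, ?_, ?_, ?_⟩
  · intro x y
    rw [hinf x, hinf y, ENNReal.iInf_add]
    refine le_iInf fun i => ?_
    rw [ENNReal.add_iInf]
    refine le_iInf fun j => ?_
    rcases le_total (β i) (β j) with h | h
    · calc φ (x + y) ≤ α i + β i * (x + y) := hle i _
        _ = (α i + β i * x) + β i * y := by ring
        _ ≤ (α i + β i * x) + β j * y := by gcongr
        _ ≤ (α i + β i * x) + (α j + β j * y) := by gcongr; exact le_add_self
    · calc φ (x + y) ≤ α j + β j * (x + y) := hle j _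
        _ = β j * x + (α j + β j * y) := by ring
        _ ≤ β i * x + (α j + β j * y) := by gcongr
        _ ≤ (α i + β i * x) + (α j + β j * y) := by gcongr; exact le_add_self
  · intro c x hc hct
    have hc0 : c ≠ 0 := (lt_of_lt_of_le one_pos hc).ne'
    rw [hinf x, ENNReal.mul_iInf_of_ne hc0 hct]
    refine le_iInf fun i => ?_
    calc φ (c * x) ≤ α i + β i * (c * x) := hle i _
      _ ≤ c * α i + β i * (c * x) := by
        gcongr
        exact le_mul_of_one_le_left' hc
      _ = c * (α i + β i * x) := by ring
  · intro z hz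
    refine ⟨by show φ (z * 0) = 0; rw [mul_zero]; exact h0, ι, α, fun i => β i * z, hne,
      fun i => ⟨(hfin i).1, ENNReal.mul_ne_top (hfin i).2 hz⟩, fun x => ?_⟩
    show φ (z * x) = _
    rw [hinf]
    exact iInf_congr fun i => by rw [mul_assoc]
  · intro P _ f hf A B
    rw [hinf (A + B * ∫⁻ x, f x ∂P)]
    refine le_iInf fun i => ?_
    have hm : Measurable (fun x => A + B * f x) := (hf.const_mul B).const_add A
    calc ∫⁻ x, φ (A + B * f x) ∂P ≤ ∫⁻ x, (α i + β i * (A + B * f x)) ∂P :=
          lintegral_mono fun x => hle i _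
      _ = α i + β i * (A + B * ∫⁻ x, f x ∂P) := by
        rw [lintegral_add_left measurable_const,
          lintegral_const_mul _ hm,
          lintegral_add_left measurable_const, lintegral_const_mul _ hf, lintegral_const,
          lintegral_const, measure_univ, mul_one, mul_one]

end Pool.Agent.H36.CE
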