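import Pool.Agent.H99.CE.Targets

/-!
# NEG: the free energy is not positive
-/

set_option autoImplicit false

open MeasureTheory ProbabilityTheory Filter Topology
open scoped ENNReal
open Pool.Agent.H95 Pool.Agent.H95.Cop Pool.Agent.H96.Cop Pool.Agent.H99.CE

namespace Pool.Agent.H36.CE

theorem pf_NEG : T_NEG := by
  intro K μ _ hexp lam h θ C hθ hC hb f hf
  have hid := integrable_id' μ hexp
  refine nonpos_of_bound μ K hid lam h 1 le_rfl (C / θ) (fun n _ => ?_) f hf
  rw [mul_one]
  exact ee_le μ K hid lam h θ hθ n C hC (hb n)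

end Pool.Agent.H36.CE
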